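import Mathlib
import Pool.Agent.H603Z.Dir.Main

set_option autoImplicit false

namespace Pool.Agent.Results.MP_853269_co.Directions

/-- Q2: a set of p points of the affine 3-space over the prime field with p elements lies in a
plane or determines at least p + 2 directions. -/
theorem result :
    ∀ (p : ℕ), p.Prime → ∀ (A : Finset (Fin 3 → ZMod p)), A.card = p →
      (∃ v : Fin 3 → ZMod p, v ≠ 0 ∧ ∃ c : ZMod p, ∀ a ∈ A, ∑ i, v i * a i = c) ∨
      p + 2 ≤ Set.ncard {W : Submodule (ZMod p) (Fin 3 → ZMod p) |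
        ∃ a ∈ A, ∃ b ∈ A, a ≠ b ∧ W = Submodule.span (ZMod p) {a - b}} :=
  fun p hp A hA => Pool.Agent.H603Z.Dir.main p hp A hA

end Pool.Agent.Results.MP_853269_co.Directions
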